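import Pool.Agent.Y213.TB.Abs
import Pool.Agent.Helper259.AbsHt

/-!
# The union over many number fields inside the algebraic numbers
-/

set_option autoImplicit false
set_option linter.unusedSectionVars false

open MvPolynomial WeierstrassCurve NumberField Height IsDedekindDomain Pool.Agent.TH942
  Pool.Agent.TH954 Pool.Agent.TH954.V Pool.Agent.Y213.TM
  Pool.Agent.Helper259.AbsHt

namespace Pool.Agent.Y213.TB

/-- descent of points -/
lemma desc {L Ω : Type} [Field L] [CharZero L] [Field Ω] [Algebra L Ω] {a b : L} {a' b' : Ω}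
    (hD : 4 * a ^ 3 + 27 * b ^ 2 ≠ 0) (ha : algebraMap L Ω a = a') (hb : algebraMap L Ω b = b')
    (P : SPt a' b') (hP : ∀ j, ∃ y : L, algebraMap L Ω y = TH954.crd P j) :
    ∃ P' : SPt a b, ∀ j, TH954.crd P j = algebraMap L Ω (TH954.crd P' j) := by
  match P, hP with
  | .zero, _ =>
    refine ⟨.zero, fun j => ?_⟩
    fin_cases j <;> simp [TH954.crd]
  | .some x y h, hP =>
    obtain ⟨x', hx'⟩ := hP 0
    obtain ⟨y', hy'⟩ := hP 1
    have ex : algebraMap L Ω x' = x := hx'
    have ey : algebraMap L Ω y' = y := hy'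
    have heq : y' ^ 2 = x' ^ 3 + a * x' + b := by
      apply (algebraMap L Ω).injective
      have h1 := sw_eqn.mp h.1
      rw [map_pow, map_add, map_add, map_mul, map_pow, ha, hb, ex, ey]
      exact h1
    refine ⟨.some x' y' (sw_nonsing hD heq), fun j => ?_⟩
    fin_cases j
    · exact ex.symm
    · exact ey.symm
    · change (1 : Ω) = algebraMap L Ω 1
      rw [map_one]

lemma rank_lift {A B : Type} [AddCommGroup A] [AddCommGroup B] (ι : A →+ B)
    (hι : Function.Injective ι) {n : ℕ} (x : Fin n → A) :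
    Module.rank ℤ (AddSubgroup.closure (Set.range (fun i => ι (x i)))) =
      Module.rank ℤ (AddSubgroup.closure (Set.range x)) := by
  have h1 : Set.range (fun i => ι (x i)) = ι '' Set.range x := by
    rw [← Set.range_comp]
    rfl
  have h2 : AddSubgroup.closure (Set.range (fun i => ι (x i))) =
      (AddSubgroup.closure (Set.range x)).map ι := by
    rw [h1, AddMonoidHom.map_closure]
  have h3 := ((AddSubgroup.closure (Set.range x)).equivMapOfInjective ι
    hι).toIntLinearEquiv.rank_eq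
  rw [h2, ← h3]

/-- a number field contained in the algebraic numbers has many primes of small norm -/
def ManyPrimes (q0 : ℕ) (δ : ℝ) (a b : Qbar) (L : IntermediateField ℚ Qbar) [NumberField L] :
    Prop :=
  ∃ T : Finset (HeightOneSpectrum (𝓞 L)), δ * Module.finrank ℚ L ≤ T.card ∧
    ∀ w ∈ T, Ideal.absNorm w.asIdeal ≤ q0 ∧
      ∀ x : 𝓞 L, ((x : L) : Qbar) = 2 * (4 * a ^ 3 + 27 * b ^ 2) → x ∉ w.asIdeal

theorem fin [DecidableEq Qbar] (a b : Qbar) (ha : IsIntegral ℤ a) (hb : IsIntegral ℤ b)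
    (hE : 4 * a ^ 3 + 27 * b ^ 2 ≠ 0) (n D q0 : ℕ) (δ : ℝ) (hδ : 0 < δ) :
    ∃ C : ℝ, 0 ≤ C ∧ ∀ h : ℝ, 0 ≤ h → ∀ F : Finset (MvPolynomial (Fin n × Fin 3) Qbar),
      Deg D (F : Set (MvPolynomial (Fin n × Fin 3) Qbar)) →
      (∀ f ∈ F, absLogHeight (fun m : f.support => coeff m.1 f) ≤ h) →
      ∀ P0 : Fin n → SPt a b, (∀ i, absLogHeight (TH954.crd (P0 i)) ≤ h) →
      ∃ 𝒯 : Finset ((Fin n → SPt a b) × (Fin (n + 2) → Fin n → ℤ)),
        (𝒯.card : ℝ) ≤ C * (Real.sqrt (1 + h) ^ n * (1 + h)) ∧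
        (∀ p ∈ 𝒯, ∀ z : Fin (n + 2) → SPt a b, ∀ f ∈ F,
          eval (fun e => TH954.crd (p.1 e.1 + ∑ l, p.2 l e.1 • z l) e.2) f = 0) ∧
        ∀ P : Fin n → SPt a b,
          (∀ f ∈ F, eval (fun p => TH954.crd (P p.1) p.2) f = 0) →
          Module.rank ℤ (AddSubgroup.closure (Set.range (fun i => P i - P0 i))) ≤ 1 →
          (∃ (L : IntermediateField ℚ Qbar) (_ : NumberField L), a ∈ L ∧ b ∈ L ∧
            (∀ i j, TH954.crd (P i - P0 i) j ∈ L) ∧ ManyPrimes q0 δ a b L) →
          ∃ p ∈ 𝒯, ∃ z : Fin (n + 2) → SPt a b, ∀ i, P i = p.1 i + ∑ l, p.2 l i • z l := by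
  classical
  -- the field of definition of the curve
  set K : IntermediateField ℚ Qbar := IntermediateField.adjoin ℚ {a, b} with hK
  have haK : a ∈ K := IntermediateField.subset_adjoin ℚ _ (by simp)
  have hbK : b ∈ K := IntermediateField.subset_adjoin ℚ _ (by simp)
  have iNK : NumberField K :=
    { to_charZero := inferInstance
      to_finiteDimensional := IntermediateField.finiteDimensional_adjoin fun y _ =>
        ((AlgebraicClosure.isAlgebraic ℚ).isAlgebraic y).isIntegral }
  set aK : K := ⟨a, haK⟩ with haKd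
  set bK : K := ⟨b, hbK⟩ with hbKd
  have hDK : 4 * aK ^ 3 + 27 * bK ^ 2 ≠ 0 := by
    intro h0
    apply hE
    have := congrArg (algebraMap K Qbar) h0
    rw [map_zero, map_add, map_mul, map_mul, map_pow, map_pow, map_ofNat, map_ofNat] at this
    exact this
  have haI : IsIntegral ℤ aK :=
    (isIntegral_algebraMap_iff (algebraMap K Qbar).injective).mp ha
  have hbI : IsIntegral ℤ bK :=
    (isIntegral_algebraMap_iff (algebraMap K Qbar).injective).mp hb
  obtain ⟨C1, hC1, hcan'⟩ := can_unif hDK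
  have hcan : ∀ (L : Type) [Field L] [NumberField L] [DecidableEq L] [Algebra K L],
      ∃ q : SPt (algebraMap K L aK) (algebraMap K L bK) → ℝ, IsCan C1 q := by
    intro L _ _ _ _
    obtain ⟨q, h1, h2, h3, h4⟩ := hcan' L
    exact ⟨q, h1, h2, h3, h4⟩
  obtain ⟨M0, hM0, hgen⟩ := richGen haI hbI hDK C1 hcan n q0 δ hδ
  obtain ⟨C, hC, habs⟩ := absT hDK n D C1 hC1 hcan M0 hM0
  refine ⟨C, hC, ?_⟩
  intro h hh F hF hFh P0 hP0
  obtain ⟨𝒯, h1, h2, h3⟩ := habs Qbar h hh (F : Set (MvPolynomial (Fin n × Fin 3) Qbar)) hF P0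
  refine ⟨𝒯, h1, h2, ?_⟩
  intro P hPX hrk hL
  obtain ⟨L1, iN1, haL1, hbL1, hcoord, hmany⟩ := hL
  refine h3 P hPX ?_
  -- the big field
  obtain ⟨L2, iN2, hL2⟩ := exists_nf
    ((⋃ f ∈ F, (fun m => coeff m f) '' (f.support : Set _)) ∪
      (Set.range (fun p : Fin n × Fin 3 => TH954.crd (P p.1) p.2)) ∪
      (Set.range (fun p : Fin n × Fin 3 => TH954.crd (P0 p.1) p.2))) (by
      refine Set.Finite.union (Set.Finite.union ?_ (Set.finite_range _)) (Set.finite_range _)
      exact Set.Finite.biUnion F.finite_toSet (fun f _ => (Finset.finite_toSet _).image _))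
  have hcoef : ∀ f ∈ F, ∀ m, coeff m f ∈ L2 := by
    intro f hf m
    by_cases hm : m ∈ f.support
    · refine hL2 _ (Or.inl (Or.inl ?_))
      exact Set.mem_biUnion (by exact hf) ⟨m, hm, rfl⟩
    · rw [MvPolynomial.notMem_support_iff.mp hm]
      exact L2.zero_mem
  have hPL2 : ∀ i j, TH954.crd (P i) j ∈ L2 := fun i j =>
    hL2 _ (Or.inl (Or.inr ⟨(i, j), rfl⟩))
  have hP0L2 : ∀ i j, TH954.crd (P0 i) j ∈ L2 := fun i j => hL2 _ (Or.inr ⟨(i, j), rfl⟩)
  set L : IntermediateField ℚ Qbar := L1 ⊔ L2 with hLd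
  have hLfd : FiniteDimensional ℚ L := IntermediateField.finiteDimensional_sup L1 L2
  have iNL : NumberField L := { to_charZero := inferInstance, to_finiteDimensional := hLfd }
  have hL1L : L1 ≤ L := le_sup_left
  have hL2L : L2 ≤ L := le_sup_right
  have hKL1 : K ≤ L1 := by
    rw [hK, IntermediateField.adjoin_le_iff]
    rintro x hx
    rcases hx with rfl | hx
    · exact haL1
    · rw [Set.mem_singleton_iff] at hx
      rw [hx]
      exact hbL1
  have hKL : K ≤ L := hKL1.trans hL1L
  let iKL1 : Algebra K L1 := (IntermediateField.inclusion hKL1).toRingHom.toAlgebra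
  let iKL : Algebra K L := (IntermediateField.inclusion hKL).toRingHom.toAlgebra
  let iL1L : Algebra L1 L := (IntermediateField.inclusion hL1L).toRingHom.toAlgebra
  have iT1 : IsScalarTower K L1 Qbar := IsScalarTower.of_algebraMap_eq (fun x => rfl)
  have iT2 : IsScalarTower K L Qbar := IsScalarTower.of_algebraMap_eq (fun x => rfl)
  have iT3 : IsScalarTower K L1 L := IsScalarTower.of_algebraMap_eq (fun x => rfl)
  have iT4 : IsScalarTower L1 L Qbar := IsScalarTower.of_algebraMap_eq (fun x => rfl)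
  have hDn : ∀ (M : Type) [Field M] [Algebra K M],
      4 * (algebraMap K M aK) ^ 3 + 27 * (algebraMap K M bK) ^ 2 ≠ 0 := by
    intro M _ _ h0
    apply hDK
    apply (algebraMap K M).injective
    rw [map_zero, ← h0]
    simp only [map_add, map_mul, map_pow, map_ofNat]
  -- descent of the points
  have hdesc : ∀ (Q : SPt a b), (∀ j, TH954.crd Q j ∈ L) →
      ∃ Q' : SPt (algebraMap K L aK) (algebraMap K L bK),
        ∀ j, TH954.crd Q j = algebraMap L Qbar (TH954.crd Q' j) := by
    intro Q hQ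
    exact desc (L := L) (Ω := Qbar) (hDn L) rfl rfl Q (fun j => ⟨⟨_, hQ j⟩, rfl⟩)
  choose PL hPL using fun i => hdesc (P i) (fun j => hL2L (hPL2 i j))
  choose P0L hP0L using fun i => hdesc (P0 i) (fun j => hL2L (hP0L2 i j))
  have hdesc1 : ∀ (Q : SPt a b), (∀ j, TH954.crd Q j ∈ L1) →
      ∃ Q' : SPt (algebraMap K L1 aK) (algebraMap K L1 bK),
        ∀ j, TH954.crd Q j = algebraMap L1 Qbar (TH954.crd Q' j) := by
    intro Q hQ
    exact desc (L := L1) (Ω := Qbar) (hDn L1) rfl rfl Q (fun j => ⟨⟨_, hQ j⟩, rfl⟩)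
  choose A1 hA1 using fun i => hdesc1 (P i - P0 i) (hcoord i)
  -- the homomorphisms
  obtain ⟨ι1, hι1⟩ := lift_ex (F := L1) (L := Qbar) (algebraMap K L1 aK) (algebraMap K L1 bK)
    a b rfl rfl
  obtain ⟨ιL, hιL⟩ := lift_ex (F := L) (L := Qbar) (algebraMap K L aK) (algebraMap K L bK)
    a b rfl rfl
  obtain ⟨ι', hι'⟩ := lift_ex (F := L1) (L := L) (algebraMap K L1 aK) (algebraMap K L1 bK)
    (algebraMap K L aK) (algebraMap K L bK) rfl rfl
  have hA1' : ∀ i, ι1 (A1 i) = P i - P0 i := by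
    intro i
    apply crd_inj
    funext j
    rw [hι1, hA1]
  have hPL' : ∀ i, ιL (PL i) = P i := by
    intro i
    apply crd_inj
    funext j
    rw [hιL, hPL]
  have hP0L' : ∀ i, ιL (P0L i) = P0 i := by
    intro i
    apply crd_inj
    funext j
    rw [hιL, hP0L]
  have hcomp : ∀ Q, ιL (ι' Q) = ι1 Q := by
    intro Q
    apply crd_inj
    funext j
    rw [hιL, hι', hι1]
    rfl
  have hdiff : ∀ i, PL i - P0L i = ι' (A1 i) := by
    intro i
    apply lift_inj hιL
    rw [map_sub, hPL', hP0L', hcomp, hA1']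
  have hrk1 : Module.rank ℤ (AddSubgroup.closure (Set.range A1)) ≤ 1 := by
    rw [← rank_lift ι1 (lift_inj hι1) A1]
    have e : (fun i => ι1 (A1 i)) = fun i => P i - P0 i := funext hA1'
    rw [e]
    exact hrk
  -- the primes
  have hrich : Rich q0 δ (algebraMap K L1 aK) (algebraMap K L1 bK) := by
    obtain ⟨T, hT1, hT2⟩ := hmany
    refine ⟨T, hT1, fun w hw => ⟨(hT2 w hw).1, fun x hx => (hT2 w hw).2 x ?_⟩⟩
    rw [hx]
    rfl
  have hdegL : (Module.finrank ℚ L : ℝ) = Module.finrank ℚ L1 * Module.finrank L1 L := by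
    rw [← Module.finrank_mul_finrank ℚ L1 L]
    push_cast
    rfl
  -- the conclusion
  refine ⟨L, inferInstance, iNL, inferInstance, iKL, inferInstance, iT2,
    (MvPolynomial.map (algebraMap L Qbar)) ⁻¹' (F : Set (MvPolynomial (Fin n × Fin 3) Qbar)),
    PL, P0L, ?_, ?_, hPL, hP0L, ?_, ?_⟩
  · rw [Set.image_preimage_eq_iff]
    intro f hf
    have : f ∈ Set.range (MvPolynomial.map (σ := Fin n × Fin 3) (algebraMap L Qbar)) := by
      rw [mem_range_map_iff_coeffs_subset]
      intro c hc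
      rw [Finset.mem_coe, MvPolynomial.mem_coeffs_iff] at hc
      obtain ⟨m, -, rfl⟩ := hc
      exact ⟨⟨_, hL2L (hcoef f hf m)⟩, rfl⟩
    exact this
  · intro f hf
    have h4 := hFh _ hf
    set g : MvPolynomial (Fin n × Fin 3) Qbar := MvPolynomial.map (algebraMap L Qbar) f with hg
    have h5 : (fun m : g.support => coeff m.1 g) =
        fun m : g.support => algebraMap L Qbar (coeff m.1 f) := by
      funext m
      exact coeff_map (algebraMap L Qbar) f m.1
    rw [h5, absLogHeight_eq L (algebraMap L Qbar) (fun m : g.support => coeff m.1 f),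
      div_le_iff₀ (finrank_pos' L)] at h4
    refine le_trans ?_ h4
    unfold fht
    have hsupp : ∀ m, m ∈ f.support → m ∈ g.support := by
      intro m hm
      rw [MvPolynomial.mem_support_iff] at hm
      rw [MvPolynomial.mem_support_iff, hg, coeff_map]
      exact fun h0 => hm ((map_eq_zero (algebraMap L Qbar)).mp h0)
    exact logHeight_comp_le (fun m : f.support => (⟨m.1, hsupp m.1 m.2⟩ : g.support))
      (fun m : g.support => coeff m.1 f)
  · intro i
    have h4 := hP0 i
    have h5 : TH954.crd (P0 i) = fun j => algebraMap L Qbar (TH954.crd (P0L i) j) := by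
      funext j
      exact hP0L i j
    rw [h5, absLogHeight_eq L (algebraMap L Qbar) (TH954.crd (P0L i)),
      div_le_iff₀ (finrank_pos' L)] at h4
    exact h4
  · rcases hgen L1 hrich A1 hrk1 with htor | ⟨R, t, hR, hRh, ht⟩
    · left
      intro i
      rw [hdiff, ← map_nsmul, htor i, map_zero]
    · right
      refine ⟨ι' R, t, ?_, ?_, ?_⟩
      · intro htors
        exact hR ((Function.Injective.isOfFinAddOrder_iff (f := ι') (lift_inj hι')).mp htors)
      · have h4 : logHeight (TH954.crd (M0 • ι' R)) =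
            Module.finrank L1 L * logHeight (TH954.crd (M0 • R)) := by
          rw [← Helper259.HtExt.logHeight_ext (L := L)]
          congr 1
          funext j
          rw [← map_nsmul]
          exact hι' _ j
        rw [h4, hdegL]
        have h5 := mul_le_mul_of_nonneg_left hRh (Nat.cast_nonneg (α := ℝ) (Module.finrank L1 L))
        linarith
      · intro i
        rw [hdiff, ← map_zsmul, ← map_sub, ← map_nsmul, ht i, map_zero]

end Pool.Agent.Y213.TB
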