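import Pool.Agent.Y213.TB.Str

/-!
# The union over many number fields
-/

set_option autoImplicit false
set_option linter.unusedSectionVars false

open MvPolynomial WeierstrassCurve NumberField Height Pool.Agent.TH942 Pool.Agent.TH954
  Pool.Agent.TH954.V Pool.Agent.Y213.TM

namespace Pool.Agent.Y213.TB

/-- the point `P` comes from a number field `L`, together with `F` and `P0`, and `P - P0` has rank
at most one, with a generator of large height -/
def Hyp {K : Type} [Field K] {a b : K} {Ω : Type} [Field Ω] [DecidableEq Ω] [Algebra K Ω] {n : ℕ}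
    (M0 : ℕ) (c h : ℝ) (F : Set (MvPolynomial (Fin n × Fin 3) Ω))
    (P0 P : Fin n → SPt (algebraMap K Ω a) (algebraMap K Ω b)) : Prop :=
  ∃ (L : Type) (_ : Field L) (_ : NumberField L) (_ : DecidableEq L) (_ : Algebra K L)
    (_ : Algebra L Ω) (_ : IsScalarTower K L Ω) (FL : Set (MvPolynomial (Fin n × Fin 3) L))
    (PL P0L : Fin n → SPt (algebraMap K L a) (algebraMap K L b)),
    MvPolynomial.map (algebraMap L Ω) '' FL = F ∧ (∀ f ∈ FL, fht f ≤ h * Module.finrank ℚ L) ∧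
    (∀ i j, TH954.crd (P i) j = algebraMap L Ω (TH954.crd (PL i) j)) ∧
    (∀ i j, TH954.crd (P0 i) j = algebraMap L Ω (TH954.crd (P0L i) j)) ∧
    (∀ i, logHeight (TH954.crd (P0L i)) ≤ h * Module.finrank ℚ L) ∧
    ((∀ i, M0 • (PL i - P0L i) = 0) ∨
      ∃ (R : SPt (algebraMap K L a) (algebraMap K L b)) (t : Fin n → ℤ),
        ¬ IsOfFinAddOrder R ∧ c * Module.finrank ℚ L ≤ logHeight (TH954.crd (M0 • R)) ∧
        ∀ i, M0 • (PL i - P0L i - t i • R) = 0)

theorem absT {K : Type} [Field K] [NumberField K] {a b : K} (hD : 4 * a ^ 3 + 27 * b ^ 2 ≠ 0)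
    (n D : ℕ) (C1 : ℝ) (hC1 : 0 ≤ C1)
    (hcan : ∀ (L : Type) [Field L] [NumberField L] [DecidableEq L] [Algebra K L],
      ∃ q : SPt (algebraMap K L a) (algebraMap K L b) → ℝ, IsCan C1 q) (M0 : ℕ) (hM0 : 1 ≤ M0) :
    ∃ C : ℝ, 0 ≤ C ∧ ∀ (Ω : Type) [Field Ω] [DecidableEq Ω] [Algebra K Ω] [IsAlgClosed Ω] (h : ℝ),
      0 ≤ h → ∀ F : Set (MvPolynomial (Fin n × Fin 3) Ω), Deg D F →
      ∀ P0 : Fin n → SPt (algebraMap K Ω a) (algebraMap K Ω b),
      ∃ 𝒯 : Finset ((Fin n → SPt (algebraMap K Ω a) (algebraMap K Ω b)) ×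
          (Fin (n + 2) → Fin n → ℤ)),
        (𝒯.card : ℝ) ≤ C * (Real.sqrt (1 + h) ^ n * (1 + h)) ∧
        (∀ p ∈ 𝒯, ∀ z : Fin (n + 2) → SPt (algebraMap K Ω a) (algebraMap K Ω b), ∀ f ∈ F,
          eval (fun e => TH954.crd (p.1 e.1 + ∑ l, p.2 l e.1 • z l) e.2) f = 0) ∧
        ∀ P : Fin n → SPt (algebraMap K Ω a) (algebraMap K Ω b),
          (∀ f ∈ F, eval (fun p => TH954.crd (P p.1) p.2) f = 0) →
          Hyp M0 (C1 + 2) h F P0 P →
          ∃ p ∈ 𝒯, ∃ z : Fin (n + 2) → SPt (algebraMap K Ω a) (algebraMap K Ω b), ∀ i,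
            P i = p.1 i + ∑ l, p.2 l i • z l := by
  classical
  obtain ⟨C4, B2, hC4, hstr⟩ := struct hD n D C1 hC1 hcan M0 hM0
  obtain ⟨cc, hcnt⟩ := cnt hD n D
  obtain ⟨Nt, hNt⟩ := tor_fin hD M0 hM0
  set A1 : ℝ := ((2 * B2 + 1 : ℕ) : ℝ) ^ (n * (n + 1)) with hA1
  refine ⟨A1 * ((2 * Real.sqrt C4 + 1) ^ n * (Nt : ℝ) ^ n) * (6 * (cc * (2 + C4) * D) + 2),
    by positivity, ?_⟩
  intro Ω _ _ _ _ h hh F hF P0
  obtain ⟨Tor, hTor1, hTor2⟩ := hNt Ω
  set m : ℕ := ⌊Real.sqrt (C4 * (1 + h))⌋₊ with hm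
  have hm1 : (m : ℝ) ≤ Real.sqrt (C4 * (1 + h)) := Nat.floor_le (Real.sqrt_nonneg _)
  have hm2 : (m : ℝ) ^ 2 ≤ C4 * (1 + h) := by
    rw [← Real.sq_sqrt (show 0 ≤ C4 * (1 + h) by positivity)]
    exact pow_le_pow_left₀ (Nat.cast_nonneg _) hm1 2
  -- the families
  choose 𝒯 h𝒯1 h𝒯2 h𝒯3 using fun τ : (Fin (n + 1) → Fin n → ℤ) × (Fin n → ℤ) ×
      (Fin n → SPt (algebraMap K Ω a) (algebraMap K Ω b)) =>
    fun hs : ∀ i, τ.2.1 i ^ 2 ≤ ((m ^ 2 : ℕ) : ℤ) =>
    hcnt Ω F hF (fun i => P0 i + τ.2.2 i) τ.2.1 (m ^ 2) hs (n + 1) τ.1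
  set I : Finset ((Fin (n + 1) → Fin n → ℤ) × (Fin n → ℤ) ×
      (Fin n → SPt (algebraMap K Ω a) (algebraMap K Ω b))) :=
    (Fintype.piFinset (fun _ : Fin (n + 1) => Fintype.piFinset
      (fun _ : Fin n => Finset.Icc (-(B2 : ℤ)) B2))) ×ˢ
      ((Fintype.piFinset (fun _ : Fin n => Finset.Icc (-(m : ℤ)) m)) ×ˢ
      (Fintype.piFinset (fun _ : Fin n => Tor))) with hI
  have hIs : ∀ τ ∈ I, ∀ i, τ.2.1 i ^ 2 ≤ ((m ^ 2 : ℕ) : ℤ) := by
    intro τ hτ i
    rw [hI, Finset.mem_product, Finset.mem_product] at hτ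
    have h1 := (Fintype.mem_piFinset.mp hτ.2.1) i
    rw [Finset.mem_Icc] at h1
    push_cast
    nlinarith
  set 𝒰 : Finset ((Fin n → SPt (algebraMap K Ω a) (algebraMap K Ω b)) ×
          (Fin (n + 2) → Fin n → ℤ)) :=
    I.attach.biUnion (fun τ => 𝒯 τ.1 (hIs τ.1 τ.2)) with h𝒰
  refine ⟨𝒰, ?_, ?_, ?_⟩
  · -- the count
    have h1 : 𝒰.card ≤ I.card * (6 * (cc * (2 + m ^ 2) * D) + 2) := by
      refine Finset.card_biUnion_le.trans ?_
      calc ∑ τ ∈ I.attach, (𝒯 τ.1 (hIs τ.1 τ.2)).card ≤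
            ∑ τ ∈ I.attach, (6 * (cc * (2 + m ^ 2) * D) + 2) :=
            Finset.sum_le_sum (fun τ _ => h𝒯1 τ.1 _)
        _ = _ := by rw [Finset.sum_const, Finset.card_attach, smul_eq_mul]
    have h2 : (I.card : ℝ) ≤ A1 * ((2 * Real.sqrt C4 + 1) ^ n * Real.sqrt (1 + h) ^ n *
        (Nt : ℝ) ^ n) := by
      have e1 : I.card = ((2 * B2 + 1) ^ n) ^ (n + 1) * ((2 * m + 1) ^ n * Tor.card ^ n) := by
        rw [hI, Finset.card_product, Finset.card_product, Fintype.card_piFinset,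
          Fintype.card_piFinset, Fintype.card_piFinset]
        simp only [Fintype.card_piFinset, Finset.prod_const, Finset.card_univ, Fintype.card_fin,
          Int.card_Icc]
        have e2 : ((B2 : ℤ) + 1 - -(B2 : ℤ)).toNat = 2 * B2 + 1 := by omega
        have e3 : ((m : ℤ) + 1 - -(m : ℤ)).toNat = 2 * m + 1 := by omega
        rw [e2, e3]
      have e4 : (2 * (m : ℝ) + 1) ≤ (2 * Real.sqrt C4 + 1) * Real.sqrt (1 + h) := by
        have e5 : Real.sqrt (C4 * (1 + h)) = Real.sqrt C4 * Real.sqrt (1 + h) :=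
          Real.sqrt_mul hC4 _
        have e6 : 1 ≤ Real.sqrt (1 + h) := by
          rw [Real.one_le_sqrt]
          linarith
        rw [e5] at hm1
        nlinarith
      rw [e1]
      push_cast
      have e7 : (((2 : ℝ) * B2 + 1) ^ n) ^ (n + 1) = A1 := by
        rw [hA1, ← pow_mul]
        push_cast
        rfl
      rw [e7]
      refine mul_le_mul_of_nonneg_left ?_ (by positivity)
      refine mul_le_mul ?_ ?_ (by positivity) (by positivity)
      · rw [← mul_pow]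
        exact pow_le_pow_left₀ (by positivity) e4 n
      · exact pow_le_pow_left₀ (Nat.cast_nonneg _) (by exact_mod_cast hTor1) n
    have h3 : ((6 * (cc * (2 + m ^ 2) * D) + 2 : ℕ) : ℝ) ≤
        (6 * (cc * (2 + C4) * D) + 2) * (1 + h) := by
      push_cast
      have e8 : (2 : ℝ) + (m : ℝ) ^ 2 ≤ (2 + C4) * (1 + h) := by nlinarith
      have e9 : (0 : ℝ) ≤ 6 * (cc * D) := by positivity
      have e10 := mul_le_mul_of_nonneg_left e8 e9
      nlinarith
    calc (𝒰.card : ℝ) ≤ ((I.card * (6 * (cc * (2 + m ^ 2) * D) + 2) : ℕ) : ℝ) := by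
          exact_mod_cast h1
      _ = (I.card : ℝ) * ((6 * (cc * (2 + m ^ 2) * D) + 2 : ℕ) : ℝ) := by
          rw [Nat.cast_mul]
      _ ≤ (A1 * ((2 * Real.sqrt C4 + 1) ^ n * Real.sqrt (1 + h) ^ n * (Nt : ℝ) ^ n)) *
          ((6 * (cc * (2 + C4) * D) + 2) * (1 + h)) :=
          mul_le_mul h2 h3 (Nat.cast_nonneg _) (by positivity)
      _ = _ := by ring
  · intro p hp z f hf
    rw [h𝒰, Finset.mem_biUnion] at hp
    obtain ⟨τ, -, hp⟩ := hp
    exact h𝒯2 τ.1 _ p hp z f hf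
  · intro P hPX hP
    obtain ⟨L, iF, iN, iD, iK, iΩ, iT, FL, PL, P0L, hFL, hFLh, hPL, hP0L, hP0h, hrk⟩ := hP
    obtain ⟨ι, hι⟩ := lift_ex (F := L) (L := Ω) (algebraMap K L a) (algebraMap K L b)
      (algebraMap K Ω a) (algebraMap K Ω b) (IsScalarTower.algebraMap_apply K L Ω a).symm
      (IsScalarTower.algebraMap_apply K L Ω b).symm
    have hιP : ∀ i, P i = ι (PL i) := by
      intro i
      apply crd_inj
      funext j
      rw [hι, hPL]
    have hιP0 : ∀ i, P0 i = ι (P0L i) := by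
      intro i
      apply crd_inj
      funext j
      rw [hι, hP0L]
    have hFLX : ∀ f ∈ FL, eval (fun p => TH954.crd (PL p.1) p.2) f = 0 := by
      intro f hf
      have h1 := eval_lift PL (fun i => ι (PL i)) (fun i j => hι _ j) f
      have h2 := hPX (MvPolynomial.map (algebraMap L Ω) f) (by
        rw [← hFL]
        exact ⟨f, hf, rfl⟩)
      simp_rw [hιP] at h2
      rw [h2] at h1
      exact (map_eq_zero (algebraMap L Ω)).mp h1.symm
    have hFLD : Deg D FL := by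
      intro f hf
      obtain ⟨d, hd, hdD⟩ := hF (MvPolynomial.map (algebraMap L Ω) f) (by
        rw [← hFL]
        exact ⟨f, hf, rfl⟩)
      refine ⟨d, ?_, hdD⟩
      intro e he i
      refine hd e ?_ i
      rw [MvPolynomial.mem_support_iff, coeff_map]
      rw [MvPolynomial.mem_support_iff] at he
      exact fun h0 => he ((map_eq_zero (algebraMap L Ω)).mp h0)
    -- the key: a triple and a point
    obtain ⟨M, s, σ, R', hM, hs, hσ, ⟨z, hz⟩, hX⟩ : ∃ (M : Fin (n + 1) → Fin n → ℤ)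
        (s : Fin n → ℤ) (σ : Fin n → SPt (algebraMap K Ω a) (algebraMap K Ω b))
        (R' : SPt (algebraMap K Ω a) (algebraMap K Ω b)), (∀ l i, |M l i| ≤ B2) ∧
        (∀ i, (s i : ℝ) ^ 2 ≤ C4 * (1 + h)) ∧ (∀ i, M0 • σ i = 0) ∧
        (∃ z : Fin (n + 1) → SPt (algebraMap K Ω a) (algebraMap K Ω b), ∀ i,
          P i = P0 i + σ i + s i • R' + ∑ l, M l i • z l) ∧
        ∀ z : Fin (n + 1) → SPt (algebraMap K Ω a) (algebraMap K Ω b), ∀ f ∈ F,
          eval (fun e => TH954.crd (P0 e.1 + σ e.1 + s e.1 • R' + ∑ l, M l e.1 • z l) e.2) f =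
            0 := by
      rcases hrk with htor | ⟨R, t, hR, hRh, ht⟩
      · refine ⟨0, 0, fun i => P i - P0 i, 0, ?_, ?_, ?_, ⟨0, ?_⟩, ?_⟩
        · intro l i
          simp
        · intro i
          have h5 : 0 ≤ C4 * (1 + h) := by positivity
          simpa using h5
        · intro i
          have h1 := congrArg ι (htor i)
          rw [map_nsmul, map_sub, map_zero, ← hιP, ← hιP0] at h1
          exact h1
        · intro i
          simp
        · intro z f hf
          have h1 : ∀ i, P0 i + (P i - P0 i) + (0 : Fin n → ℤ) i •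
              (0 : SPt (algebraMap K Ω a) (algebraMap K Ω b)) +
              ∑ l, (0 : Fin (n + 1) → Fin n → ℤ) l i • z l = P i := by
            intro i
            simp
          simp_rw [h1]
          exact hPX f hf
      · obtain ⟨s, M, hM, hs, ⟨z, hz⟩, hX⟩ := hstr L h hh FL hFLD hFLh PL P0L hP0h hFLX R t hR
          hRh ht
        have hre : ∀ i, ι (s i • R + (PL i - t i • R)) =
            P0 i + (ι (PL i - P0L i - t i • R)) + s i • ι R := by
          intro i
          rw [hιP0 i, ← map_add, ← map_zsmul, ← map_add]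
          congr 1
          abel
        refine ⟨M, s, fun i => ι (PL i - P0L i - t i • R), ι R, hM, hs, ?_,
          ⟨fun l => ι (z l), ?_⟩, ?_⟩
        · intro i
          rw [← map_nsmul, ht i, map_zero]
        · intro i
          rw [← hre, hιP i]
          simp_rw [← map_zsmul]
          rw [← map_sum, ← map_add]
          congr 1
          exact hz i
        · intro z' f hf
          rw [← hFL] at hf
          obtain ⟨f', hf', rfl⟩ := hf
          have h1 := hX Ω ι hι z' f' hf'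
          simp_rw [hre] at h1
          exact h1
    -- the index
    have hsm : ∀ i, |s i| ≤ (m : ℤ) := by
      intro i
      have h1 : ((s i).natAbs : ℝ) ≤ Real.sqrt (C4 * (1 + h)) := by
        apply Real.le_sqrt_of_sq_le
        have h2 : (((s i).natAbs : ℕ) : ℝ) = |(s i : ℝ)| := by
          rw [Nat.cast_natAbs, Int.cast_abs]
        rw [h2, sq_abs]
        exact hs i
      have h3 : (s i).natAbs ≤ m := Nat.le_floor h1
      rw [Int.abs_eq_natAbs]
      exact_mod_cast h3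
    have hτI : (M, s, σ) ∈ I := by
      rw [hI, Finset.mem_product, Finset.mem_product]
      refine ⟨?_, ?_, ?_⟩
      · rw [Fintype.mem_piFinset]
        intro l
        rw [Fintype.mem_piFinset]
        intro i
        rw [Finset.mem_Icc]
        exact abs_le.mp (hM l i)
      · rw [Fintype.mem_piFinset]
        intro i
        rw [Finset.mem_Icc]
        exact abs_le.mp (hsm i)
      · rw [Fintype.mem_piFinset]
        intro i
        exact hTor2 _ (hσ i)
    obtain ⟨p, hp, hpz⟩ := h𝒯3 (M, s, σ) (hIs _ hτI) R' (by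
      intro z f hf
      exact hX z f hf)
    obtain ⟨z', hz'⟩ := hpz z
    refine ⟨p, ?_, z', fun i => ?_⟩
    · rw [h𝒰, Finset.mem_biUnion]
      exact ⟨⟨_, hτI⟩, Finset.mem_attach _ _, hp⟩
    · rw [hz i]
      exact hz' i

end Pool.Agent.Y213.TB
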