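import Pool.Agent.Y213.TM.Fin

/-!
# A form with many zeros on a translate of an elliptic curve vanishes there: dependence on the
# direction
-/

set_option autoImplicit false
set_option linter.unusedSectionVars false

open MvPolynomial WeierstrassCurve Pool.Agent.TH942 Pool.Agent.TH954 Pool.Agent.TH954.V
  Pool.Agent.Y213.TM

namespace Pool.Agent.Y213.TB

/-- Bezout with the dependence on the direction -/
theorem bezC {K : Type} [Field K] [CharZero K] {a b : K} (hD : 4 * a ^ 3 + 27 * b ^ 2 ≠ 0)
    (n D : ℕ) : ∃ cc : ℕ, ∀ (L : Type) [Field L] [DecidableEq L] [Algebra K L]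
        (d : Fin n → ℕ) (f : MvPolynomial (Fin n × Fin 3) L), MultiHom d f → ∑ i, d i ≤ D →
      ∀ (Q : Fin n → SPt (algebraMap K L a) (algebraMap K L b)) (c : Fin n → ℤ) (Tc : ℕ),
        (∀ i, c i ^ 2 ≤ Tc) →
      ∀ S : Finset (SPt (algebraMap K L a) (algebraMap K L b)),
        6 * (cc * (2 + Tc) * D) + 1 < S.card →
        (∀ z ∈ S, eval (fun p => TH954.crd (Q p.1 + c p.1 • z) p.2) f = 0) →
        ∀ z : SPt (algebraMap K L a) (algebraMap K L b),
          eval (fun p => TH954.crd (Q p.1 + c p.1 • z) p.2) f = 0 := by
  classical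
  obtain ⟨cc, hfam⟩ := fam' K a b hD 2
  choose D0 hD01 hD02 Fam hhom hrep using fun c : ℤ => hfam ![1, c]
  refine ⟨cc, ?_⟩
  intro L _ _ _ d f hf hd Q c Tc hc S hS hzero z
  set DM : ℕ := cc * (2 + Tc) with hDM
  have hchar : CharZero L := charZero_of_injective_algebraMap (algebraMap K L).injective
  have hD' : 4 * (algebraMap K L a) ^ 3 + 27 * (algebraMap K L b) ^ 2 ≠ 0 := by
    intro h0
    apply hD
    apply (algebraMap K L).injective
    rw [map_zero, ← h0]
    simp only [map_add, map_mul, map_pow, map_ofNat]
  -- the affine points, for an arbitrary translate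
  have main : ∀ (Q : Fin n → SPt (algebraMap K L a) (algebraMap K L b))
      (S : Finset (SPt (algebraMap K L a) (algebraMap K L b))), 6 * (DM * D) + 1 < S.card →
      (∀ z ∈ S, eval (fun p => TH954.crd (Q p.1 + c p.1 • z) p.2) f = 0) →
      ∀ z : SPt (algebraMap K L a) (algebraMap K L b), z ≠ 0 →
        eval (fun p => TH954.crd (Q p.1 + c p.1 • z) p.2) f = 0 := by
    intro Q S hS hzero z hz
    have hsum : ∀ (i : Fin n) (z : SPt (algebraMap K L a) (algebraMap K L b)),
        ∑ j, (![1, c i] : Fin 2 → ℤ) j • (![Q i, z] : Fin 2 → SPt (algebraMap K L a)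
          (algebraMap K L b)) j = Q i + c i • z := by
      intro i z
      simp [Fin.sum_univ_two]
    have h1 : ∀ i, ∃ T ∈ Fam (c i), ∃ e, evc (T e)
        (fun j => TH954.crd ((![Q i, z] : Fin 2 → SPt (algebraMap K L a) (algebraMap K L b)) j)) ≠ 0 :=
      fun i => (hrep (c i) L _ _ rfl rfl ![Q i, z]).2
    choose T hT e he using h1
    have hpair : ∀ (i : Fin n) (z : SPt (algebraMap K L a) (algebraMap K L b)),
        (fun j => TH954.crd ((![Q i, z] : Fin 2 → SPt (algebraMap K L a) (algebraMap K L b)) j)) =
          ![TH954.crd (Q i), crd z] := by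
      intro i z
      funext j
      fin_cases j <;> rfl
    -- the composed form
    set g : MvPolynomial (Fin 3) L := aeval (fun p : Fin n × Fin 3 =>
      secP (T p.1 p.2) (TH954.crd (Q p.1))) f with hg
    have hghom : g.IsHomogeneous (∑ i, D0 (c i) * d i) :=
      comp_hom hf _ (fun i => D0 (c i)) (fun p => secP_hom (hhom (c p.1) _ (hT p.1) p.2) _)
    have hval : ∀ z : SPt (algebraMap K L a) (algebraMap K L b), ∃ s : Fin n → L,
        (∀ i j, evc (T i j) ![TH954.crd (Q i), crd z] = s i * TH954.crd (Q i + c i • z) j) ∧
        eval (crd z) g = (∏ i, s i ^ d i) * eval (fun p => TH954.crd (Q p.1 + c p.1 • z) p.2) f := by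
      intro z
      have h2 : ∀ i, ∃ s : L, (fun e => evc (T i e) (fun j => TH954.crd ((![Q i, z] :
          Fin 2 → SPt (algebraMap K L a) (algebraMap K L b)) j))) =
          s • TH954.crd (Q i + c i • z) := by
        intro i
        have := (hrep (c i) L _ _ rfl rfl ![Q i, z]).1 _ (hT i)
        rwa [hsum] at this
      choose s hs using h2
      refine ⟨s, fun i j => ?_, ?_⟩
      · have := congrFun (hs i) j
        rw [hpair] at this
        exact this
      · have h3 : eval (crd z) g = eval (fun p : Fin n × Fin 3 =>
            eval (crd z) (secP (T p.1 p.2) (TH954.crd (Q p.1)))) f := by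
          rw [hg, aeval_def, hom_eval₂]
          have e3 : (eval (crd z)).comp (algebraMap L (MvPolynomial (Fin 3) L)) =
              RingHom.id L := by
            ext x
            rw [RingHom.comp_apply, algebraMap_eq, eval_C]
            rfl
          rw [e3]
          rfl
        rw [h3, ← hf.eval_smul s (fun p => TH954.crd (Q p.1 + c p.1 • z) p.2)]
        have e4 : (fun p : Fin n × Fin 3 => eval (crd z) (secP (T p.1 p.2) (TH954.crd (Q p.1)))) =
            fun p => s p.1 * TH954.crd (Q p.1 + c p.1 • z) p.2 := by
          funext p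
          rw [eval_secP]
          have := congrFun (hs p.1) p.2
          rw [hpair] at this
          exact this
        rw [e4]
    have hdeg : ∑ i, D0 (c i) * d i ≤ DM * D := by
      calc ∑ i, D0 (c i) * d i ≤ ∑ i, DM * d i := by
            refine Finset.sum_le_sum (fun i _ => Nat.mul_le_mul_right _ ?_)
            have h10 := hD02 (c i)
            simp only [Fin.sum_univ_two, Matrix.cons_val_zero, Matrix.cons_val_one] at h10
            have h11 : (cc : ℤ) * (1 + (1 ^ 2 + c i ^ 2)) ≤ cc * (2 + Tc) := by
              refine mul_le_mul_of_nonneg_left ?_ (by positivity)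
              have := hc i
              linarith
            have h12 : ((D0 (c i) : ℕ) : ℤ) ≤ ((DM : ℕ) : ℤ) := by
              rw [hDM]
              push_cast
              exact h10.trans h11
            exact_mod_cast h12
        _ = DM * ∑ i, d i := by rw [Finset.mul_sum]
        _ ≤ DM * D := Nat.mul_le_mul_left _ hd
    have hz1 : eval (crd z) g = 0 := by
      refine zeros' hD' hghom S (fun P hP => ?_) (by omega) z hz
      obtain ⟨s, -, hs⟩ := hval P
      rw [hs, hzero P hP, mul_zero]
    obtain ⟨s, hs1, hs2⟩ := hval z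
    rw [hs2, mul_eq_zero] at hz1
    rcases hz1 with h4 | h4
    · exfalso
      rw [Finset.prod_eq_zero_iff] at h4
      obtain ⟨i, -, hi⟩ := h4
      apply he i
      have hi0 : s i = 0 := by
        by_contra hcon
        exact pow_ne_zero _ hcon hi
      rw [hpair, hs1, hi0, zero_mul]
    · exact h4
  by_cases hz : z = 0
  · -- the origin
    obtain ⟨z1, hz1, hz10⟩ : ∃ z1 ∈ S, z1 ≠ 0 := by
      by_contra hcon
      push Not at hcon
      have : S ⊆ {0} := fun x hx => Finset.mem_singleton.mpr (hcon x hx)
      have := Finset.card_le_card this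
      rw [Finset.card_singleton] at this
      omega
    have h5 := main (fun i => Q i - c i • z1) (S.image (fun x => x + z1)) (by
      rw [Finset.card_image_of_injective _ (add_left_injective z1)]
      exact hS) (by
      intro x hx
      obtain ⟨x', hx', rfl⟩ := Finset.mem_image.mp hx
      have e5 : ∀ i, Q i - c i • z1 + c i • (x' + z1) = Q i + c i • x' := by
        intro i
        rw [smul_add]
        abel
      simp_rw [e5]
      exact hzero x' hx') z1 hz10
    have e6 : ∀ i, Q i - c i • z1 + c i • z1 = Q i + c i • z := by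
      intro i
      rw [hz, smul_zero, add_zero, sub_add_cancel]
    simp_rw [e6] at h5
    exact h5
  · exact main Q S hS hzero z hz

end Pool.Agent.Y213.TB
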