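import Pool.Agent.Y213.TB.BogL
import Pool.Agent.TH954.V.CanL

/-!
# A lower bound for the heights of the points over number fields with many primes of small norm
-/

set_option autoImplicit false
set_option linter.unusedSectionVars false

open WeierstrassCurve NumberField Height IsDedekindDomain Pool.Agent.TH942 Pool.Agent.TH954
  Pool.Agent.TH954.V

namespace Pool.Agent.Y213.TB

/-- `L` has at least `δ [L : ℚ]` primes of norm at most `q0` that do not divide
`2 (4 a ^ 3 + 27 b ^ 2)` -/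
def Rich (q0 : ℕ) (δ : ℝ) {L : Type} [Field L] [NumberField L] (a b : L) : Prop :=
  ∃ T : Finset (HeightOneSpectrum (𝓞 L)), δ * Module.finrank ℚ L ≤ T.card ∧
    ∀ w ∈ T, Ideal.absNorm w.asIdeal ≤ q0 ∧
      ∀ x : 𝓞 L, (x : L) = 2 * (4 * a ^ 3 + 27 * b ^ 2) → x ∉ w.asIdeal

lemma tot_ge {L : Type} [Field L] [NumberField L] {g : AbsoluteValue L ℝ → ℝ} (hg : FS g)
    (h0 : ∀ w, 0 ≤ g w) {r : ℝ} (S : Finset (FinitePlace L)) (hS : ∀ v ∈ S, r ≤ g (av v)) :
    S.card * r ≤ tot g := by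
  classical
  unfold tot
  have h1 : 0 ≤ ∑ w : InfinitePlace L, (w.mult : ℝ) * g (ai w) :=
    Finset.sum_nonneg (fun w _ => mul_nonneg (Nat.cast_nonneg _) (h0 _))
  rw [finsum_eq (S ∪ hg.toFinset) (fun v hv => by
    rw [Finset.mem_union, Set.Finite.mem_toFinset]
    exact Or.inr hv)]
  have h2 : ∑ v ∈ S, g (av v) ≤ ∑ v ∈ S ∪ hg.toFinset, g (av v) :=
    Finset.sum_le_sum_of_subset_of_nonneg Finset.subset_union_left (fun v _ _ => h0 _)
  have h3 : S.card * r ≤ ∑ v ∈ S, g (av v) := by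
    have := Finset.card_nsmul_le_sum S (fun v => g (av v)) r hS
    rwa [nsmul_eq_mul] at this
  linarith

theorem bog (q0 : ℕ) (δ c : ℝ) (hδ : 0 < δ) : ∃ M : ℕ, 1 ≤ M ∧
    ∀ (L : Type) [Field L] [NumberField L] [DecidableEq L] (a b : L), ShortInt (sw a b) →
      Rich q0 δ a b → ∀ P : SPt a b, M • P = 0 ∨
        c * Module.finrank ℚ L ≤ logHeight (TH954.crd (M • P)) := by
  classical
  set R : ℝ := Real.exp ((|c| + 1) / δ) with hR
  have hR1 : 1 < R := Real.one_lt_exp_iff.mpr (by positivity)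
  obtain ⟨s, hs⟩ := exists_pow_lt_of_lt_one (y := (1 / 2 : ℝ)) (x := min (1 / R) (1 / (2 * R ^ 11)))
    (lt_min (by positivity) (by positivity)) (by norm_num)
  refine ⟨(q0 ^ (s * 3)).factorial, Nat.factorial_pos _, ?_⟩
  intro L _ _ _ a b hE hrich P
  set M : ℕ := (q0 ^ (s * 3)).factorial with hM
  obtain ⟨T, hT, hTw⟩ := hrich
  by_cases h0 : M • P = 0
  · exact Or.inl h0
  right
  have hbig : ∀ w ∈ T, Big R (locHom (L := w.adicCompletion L) (sw a b) (M • P)) := by
    intro w hw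
    obtain ⟨hw1, hw2⟩ := hTw w hw
    refine bog_loc hE w q0 hw1 ?_ hR1 s (hs.trans_le (min_le_left _ _))
      (hs.trans_le (min_le_right _ _)) P _
    obtain ⟨A, hA⟩ : ∃ A : 𝓞 L, (A : L) = a := ⟨⟨a, hE.ia⟩, rfl⟩
    obtain ⟨B, hB⟩ : ∃ B : 𝓞 L, (B : L) = b := ⟨⟨b, hE.ib⟩, rfl⟩
    set x : 𝓞 L := 2 * (4 * A ^ 3 + 27 * B ^ 2) with hx
    have hx1 : (x : L) = 2 * (4 * a ^ 3 + 27 * b ^ 2) := by
      rw [hx, ← hA, ← hB]
      simp only [map_mul, map_add, map_pow, map_ofNat]
    have h2 := (FinitePlace.norm_eq_one_iff_notMem L w x).mpr (hw2 x hx1)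
    have h3 : FinitePlace.embedding w (algebraMap (𝓞 L) L x) =
        algebraMap L (w.adicCompletion L) (2 * (4 * (sw a b).a₄ ^ 3 + 27 * (sw a b).a₆ ^ 2)) := by
      change algebraMap L (w.adicCompletion L) (x : L) = _
      rw [hx1]
      rfl
    rw [h3] at h2
    exact h2
  have hcrd : ∀ w : AbsoluteValue L ℝ, 1 ≤ ⨆ j, w (TH954.crd (M • P) j) := by
    intro w
    have h1 := le_sup w (TH954.crd (M • P)) 2
    rw [TH954.V.crd_eq_of_ne h0, w.map_one] at h1
    exact h1
  have hsup : ∀ w ∈ T, Real.log R ≤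
      Real.log (⨆ j, (av (FinitePlace.mk w)) (TH954.crd (M • P) j)) := by
    intro w hw
    refine Real.log_le_log (by positivity) ?_
    have h1 := hbig w hw
    generalize hQ : M • P = Q at h0 h1
    match Q with
    | .zero => exact absurd rfl h0
    | .some x y h =>
      obtain ⟨h', e⟩ := locHom_some (L := w.adicCompletion L) (sw a b) h
      rw [e, big_some] at h1
      have h2 := le_sup (av (FinitePlace.mk w)) (TH954.crd (Affine.Point.some x y h)) 0
      exact h1.trans h2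
  have h4 := tot_ge (g := fun w : AbsoluteValue L ℝ => Real.log (⨆ j, w (TH954.crd (M • P) j)))
    (FS_sup (crd_ne_zero _)) (fun w => Real.log_nonneg (hcrd w))
    (T.image FinitePlace.mk) (r := Real.log R) (by
      intro v hv
      obtain ⟨w, hw, rfl⟩ := Finset.mem_image.mp hv
      exact hsup w hw)
  rw [tot_sup (crd_ne_zero _), Finset.card_image_of_injective _
    (fun v₁ v₂ h => FinitePlace.mk_eq_iff.mp h), hR, Real.log_exp] at h4
  refine le_trans ?_ h4
  have h5 : (0 : ℝ) ≤ Module.finrank ℚ L := Nat.cast_nonneg _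
  calc c * Module.finrank ℚ L ≤ (|c| + 1) * Module.finrank ℚ L :=
        mul_le_mul_of_nonneg_right ((le_abs_self c).trans (by linarith)) h5
    _ = (δ * Module.finrank ℚ L) * ((|c| + 1) / δ) := by
        field_simp
    _ ≤ T.card * ((|c| + 1) / δ) := mul_le_mul_of_nonneg_right hT (by positivity)

end Pool.Agent.Y213.TB
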