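import Pool.Agent.Y213.TB.Near2
import Pool.Agent.TH954.LocKey

/-!
# A fixed multiple of every rational point is near the origin at the primes of small norm
-/

set_option autoImplicit false
set_option linter.unusedSectionVars false

open WeierstrassCurve NumberField IsDedekindDomain Pool.Agent.TH942 Pool.Agent.TH954

namespace Pool.Agent.Y213.TB

variable {L : Type} [Field L] [NumberField L]

lemma norm_le_of_val (w : HeightOneSpectrum (𝓞 L)) (s : ℕ) {x : L}
    (h : w.valuation L x ≤ WithZero.exp (-(s : ℤ))) :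
    ‖algebraMap L (w.adicCompletion L) x‖ ≤ (1 / 2) ^ s := by
  have h1 := FinitePlace.norm_embedding' w x
  change ‖FinitePlace.embedding w x‖ ≤ _
  rw [h1]
  have h2 := (WithZeroMulInt.toNNReal_strictMono
    (HeightOneSpectrum.one_lt_absNorm_nnreal w)).monotone h
  have h3 : WithZeroMulInt.toNNReal (HeightOneSpectrum.absNorm_ne_zero w)
      (WithZero.exp (-(s : ℤ))) = (Ideal.absNorm w.asIdeal : NNReal) ^ (-(s : ℤ)) := by
    rw [WithZeroMulInt.toNNReal_neg_apply _ (WithZero.exp_ne_zero)]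
    rfl
  rw [h3] at h2
  have h4 : (2 : NNReal) ≤ Ideal.absNorm w.asIdeal := by
    have := HeightOneSpectrum.one_lt_absNorm w
    exact_mod_cast this
  have h5 : (Ideal.absNorm w.asIdeal : NNReal) ^ (-(s : ℤ)) ≤ (1 / 2) ^ s := by
    rw [zpow_neg, zpow_natCast, one_div, inv_pow]
    exact inv_anti₀ (by positivity) (pow_le_pow_left₀ (by norm_num) h4 s)
  have h6 := h2.trans h5
  have h7 : ((WithZeroMulInt.toNNReal (HeightOneSpectrum.absNorm_ne_zero w)
      (w.valuation L x) : NNReal) : ℝ) ≤ (((1 / 2) ^ s : NNReal) : ℝ) := by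
    exact_mod_cast h6
  refine h7.trans (le_of_eq ?_)
  push_cast
  rfl

lemma classes (w : HeightOneSpectrum (𝓞 L)) (s : ℕ) :
    ∃ cl : L → (𝓞 L ⧸ w.asIdeal ^ s), ∀ k k' : L,
      ‖algebraMap L (w.adicCompletion L) k‖ ≤ 1 → ‖algebraMap L (w.adicCompletion L) k'‖ ≤ 1 →
      cl k = cl k' → ‖algebraMap L (w.adicCompletion L) (k - k')‖ ≤ (1 / 2) ^ s := by
  classical
  have hchoose : ∀ k : L, ∃ r : 𝓞 L, ‖algebraMap L (w.adicCompletion L) k‖ ≤ 1 →
      w.valuation L (algebraMap (𝓞 L) L r - k) ≤ WithZero.exp (-(s : ℤ)) := by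
    intro k
    by_cases hk : ‖algebraMap L (w.adicCompletion L) k‖ ≤ 1
    · obtain ⟨r, hr⟩ := w.exists_valuation_sub_lt_of_integer (val_le_one_of_norm w hk)
        (Units.mk0 (WithZero.exp (-(s : ℤ))) WithZero.exp_ne_zero)
      exact ⟨r, fun _ => hr.le⟩
    · exact ⟨0, fun h => absurd h hk⟩
  choose r hr using hchoose
  refine ⟨fun k => Ideal.Quotient.mk _ (r k), ?_⟩
  intro k k' hk hk' hcl
  have h3 : r k - r k' ∈ w.asIdeal ^ s := by
    rw [← Ideal.Quotient.mk_eq_mk_iff_sub_mem]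
    exact hcl
  rw [← HeightOneSpectrum.intValuation_le_pow_iff_mem] at h3
  apply norm_le_of_val
  have h4 : k - k' = algebraMap (𝓞 L) L (r k - r k') - ((algebraMap (𝓞 L) L (r k) - k) -
      (algebraMap (𝓞 L) L (r k') - k')) := by
    rw [map_sub]
    ring
  rw [h4]
  refine (Valuation.map_sub _ _ _).trans (max_le ?_ ?_)
  · rw [HeightOneSpectrum.valuation_of_algebraMap]
    exact h3
  · exact (Valuation.map_sub _ _ _).trans (max_le (hr k hk) (hr k' hk'))

lemma card_classes (w : HeightOneSpectrum (𝓞 L)) (s q0 : ℕ)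
    (hq : Ideal.absNorm w.asIdeal ≤ q0) :
    Finite (𝓞 L ⧸ w.asIdeal ^ s) ∧ Nat.card (𝓞 L ⧸ w.asIdeal ^ s) ≤ q0 ^ s := by
  have h0 : w.asIdeal ≠ 0 := w.ne_bot
  have hne : w.asIdeal ^ s ≠ ⊥ := pow_ne_zero s h0
  refine ⟨Ideal.finiteQuotientOfFreeOfNeBot _ hne, ?_⟩
  have h1 : Nat.card (𝓞 L ⧸ w.asIdeal ^ s) = Ideal.absNorm (w.asIdeal ^ s) := by
    rw [Ideal.absNorm_apply]
    rfl
  rw [h1, map_pow]
  exact Nat.pow_le_pow_left hq s

theorem bog_loc [DecidableEq L] {E : WeierstrassCurve L} (hE : ShortInt E)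
    (w : HeightOneSpectrum (𝓞 L)) (q0 : ℕ) (hq : Ideal.absNorm w.asIdeal ≤ q0)
    (hw : ‖algebraMap L (w.adicCompletion L) (2 * (4 * E.a₄ ^ 3 + 27 * E.a₆ ^ 2))‖ = 1)
    {R : ℝ} (hR : 1 < R) (s : ℕ) (hs1 : (1 / 2 : ℝ) ^ s < 1 / R)
    (hs2 : (1 / 2 : ℝ) ^ s < 1 / (2 * R ^ 11)) (P : E.toAffine.Point) (hdec : DecidableEq (w.adicCompletion L)) :
    Big R (locHom (L := w.adicCompletion L) E ((q0 ^ (s * 3)).factorial • P)) := by
  have hSI := hE.si w
  obtain ⟨cl, hcl⟩ := classes w s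
  obtain ⟨hfin, hcard⟩ := card_classes w s q0 hq
  have h2 : (2 : w.adicCompletion L) ≠ 0 := TH954.two_ne w
  -- the norms
  have n2 : ‖(2 : w.adicCompletion L)‖ ≤ 1 := u2
  set c : w.adicCompletion L := 4 * (E.baseChange (w.adicCompletion L)).a₄ ^ 3 +
      27 * (E.baseChange (w.adicCompletion L)).a₆ ^ 2 with hc
  have hmap : algebraMap L (w.adicCompletion L) (2 * (4 * E.a₄ ^ 3 + 27 * E.a₆ ^ 2)) = 2 * c := by
    rw [map_mul, map_add, map_mul, map_mul, map_pow, map_pow, map_ofNat, map_ofNat, map_ofNat]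
    rfl
  have nc1 : ‖c‖ ≤ 1 := by
    refine uadd (umul u4 ?_) (umul u27 ?_)
    · rw [norm_pow]
      exact pow_le_one₀ (norm_nonneg _) hSI.ha
    · rw [norm_pow]
      exact pow_le_one₀ (norm_nonneg _) hSI.hb
  rw [hmap, norm_mul] at hw
  have e2 : ‖(2 : w.adicCompletion L)‖ = 1 := by
    by_contra hcon
    have : ‖(2 : w.adicCompletion L)‖ < 1 := lt_of_le_of_ne n2 hcon
    nlinarith [norm_nonneg (2 : w.adicCompletion L), norm_nonneg c]
  have eD : ‖c‖ = 1 := by
    rwa [e2, one_mul] at hw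
  have hD1 : ‖4 * c‖ = 1 := by
    have : (4 : w.adicCompletion L) = 2 * 2 := by norm_num
    rw [this, norm_mul, norm_mul, e2, eD]
    norm_num
  -- the classes of the multiples
  choose k hk using fun j : ℕ => nc_rat E w (j • P)
  have hint : ∀ j i, ‖algebraMap L (w.adicCompletion L) (k j i)‖ ≤ 1 := by
    intro j i
    rw [← hk]
    exact nc_le_one hSI _ _
  set N : ℕ := q0 ^ (s * 3) with hN
  obtain ⟨j, j', hjj, hj', hj, hsame⟩ : ∃ j j' : ℕ, j < j' ∧ j' ≤ N ∧ j ≤ N ∧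
      (fun i : Fin 3 => cl (k j i)) = fun i => cl (k j' i) := by
    have hfin3 : Finite (Fin 3 → (𝓞 L ⧸ w.asIdeal ^ s)) := inferInstance
    have hcard3 : Nat.card (Fin 3 → (𝓞 L ⧸ w.asIdeal ^ s)) ≤ N := by
      rw [Nat.card_fun, Nat.card_eq_fintype_card (α := Fin 3), Fintype.card_fin, hN, pow_mul]
      exact Nat.pow_le_pow_left hcard 3
    have hlt : Nat.card (Fin 3 → (𝓞 L ⧸ w.asIdeal ^ s)) < Nat.card (Fin (N + 1)) := by
      rw [Nat.card_eq_fintype_card (α := Fin (N + 1)), Fintype.card_fin]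
      omega
    have hni : ¬ Function.Injective
        (fun j : Fin (N + 1) => (fun i : Fin 3 => cl (k j.1 i))) := by
      intro hinj
      exact absurd (Nat.card_le_card_of_injective _ hinj) (not_le.mpr hlt)
    rw [Function.Injective] at hni
    push Not at hni
    obtain ⟨x, y, hxy, hne⟩ := hni
    rcases lt_or_gt_of_ne (fun h => hne (Fin.ext h)) with h | h
    · exact ⟨x.1, y.1, h, by omega, by omega, hxy⟩
    · exact ⟨y.1, x.1, h, by omega, by omega, hxy.symm⟩
  -- the difference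
  have hd0 : (0 : ℝ) < 1 / (2 * R ^ 11) := by positivity
  set d : ℝ := min (1 / R) (1 / (2 * R ^ 11)) with hd
  have hd0' : 0 < d := lt_min (by positivity) hd0
  have hdiff := near_diff hSI h2 hD1 hR hd0' (min_le_left _ _) (min_le_right _ _)
    (locHom (L := w.adicCompletion L) E (j' • P)) (locHom (L := w.adicCompletion L) E (j • P)) (by
      intro i
      rw [hk, hk, ← map_sub]
      have h5 := hcl (k j' i) (k j i) (hint _ _) (hint _ _) (congrFun hsame i).symm
      exact h5.trans_lt (lt_min hs1 hs2))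
  rw [← map_sub] at hdiff
  have h6 : j' • P - j • P = (j' - j) • P := by
    rw [sub_eq_iff_eq_add, ← add_smul]
    congr 1
    omega
  rw [h6] at hdiff
  obtain ⟨m, hm⟩ : (j' - j) ∣ N.factorial := Nat.dvd_factorial (by omega) (by omega)
  have h7 : N.factorial • P = m • (j' - j) • P := by
    rw [hm, mul_comm, mul_smul]
  rw [h7, map_nsmul]
  exact hSI.big_nsmul h2 hR hdiff m

end Pool.Agent.Y213.TB
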