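import Pool.Agent.Y213.TB.BezC

/-!
# Counting the translates in a family
-/

set_option autoImplicit false
set_option linter.unusedSectionVars false

open MvPolynomial WeierstrassCurve NumberField Height Pool.Agent.TH942 Pool.Agent.TH954
  Pool.Agent.TH954.V Pool.Agent.Y213.TM

namespace Pool.Agent.Y213.TB

lemma fin_of_card {α : Type} [DecidableEq α] (s : Set α) (N : ℕ)
    (h : ∀ S : Finset α, (∀ x ∈ S, x ∈ s) → S.card ≤ N) :
    ∃ T : Finset α, T.card ≤ N ∧ ∀ x, x ∈ T ↔ x ∈ s := by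
  have hfin : s.Finite := by
    by_contra hinf
    obtain ⟨S, hS1, hS2⟩ := Set.Infinite.exists_subset_card_eq hinf (N + 1)
    have := h S (fun x hx => hS1 hx)
    omega
  refine ⟨hfin.toFinset, h _ (fun x hx => hfin.mem_toFinset.mp hx), fun x => hfin.mem_toFinset⟩

theorem cnt {K : Type} [Field K] [CharZero K] {a b : K} (hD : 4 * a ^ 3 + 27 * b ^ 2 ≠ 0)
    (n D : ℕ) : ∃ cc : ℕ, ∀ (Ω : Type) [Field Ω] [DecidableEq Ω] [Algebra K Ω]
      (F : Set (MvPolynomial (Fin n × Fin 3) Ω)), Deg D F →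
      ∀ (Q : Fin n → SPt (algebraMap K Ω a) (algebraMap K Ω b)) (s : Fin n → ℤ) (Tc : ℕ),
        (∀ i, s i ^ 2 ≤ Tc) → ∀ (m : ℕ) (M : Fin m → Fin n → ℤ),
      ∃ 𝒯 : Finset ((Fin n → SPt (algebraMap K Ω a) (algebraMap K Ω b)) ×
          (Fin (m + 1) → Fin n → ℤ)),
        𝒯.card ≤ 6 * (cc * (2 + Tc) * D) + 2 ∧
        (∀ p ∈ 𝒯, ∀ z : Fin (m + 1) → SPt (algebraMap K Ω a) (algebraMap K Ω b), ∀ f ∈ F,
          eval (fun e => TH954.crd (p.1 e.1 + ∑ l, p.2 l e.1 • z l) e.2) f = 0) ∧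
        ∀ z0 : SPt (algebraMap K Ω a) (algebraMap K Ω b),
          (∀ z : Fin m → SPt (algebraMap K Ω a) (algebraMap K Ω b), ∀ f ∈ F,
            eval (fun e => TH954.crd (Q e.1 + s e.1 • z0 + ∑ l, M l e.1 • z l) e.2) f = 0) →
          ∃ p ∈ 𝒯, ∀ z : Fin m → SPt (algebraMap K Ω a) (algebraMap K Ω b),
            ∃ z' : Fin (m + 1) → SPt (algebraMap K Ω a) (algebraMap K Ω b), ∀ i,
              Q i + s i • z0 + ∑ l, M l i • z l = p.1 i + ∑ l, p.2 l i • z' l := by
  classical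
  obtain ⟨cc, hcc⟩ := bezC hD n D
  refine ⟨cc, ?_⟩
  intro Ω _ _ _ F hF Q s Tc hs m M
  by_cases hall : ∀ (z0 : SPt (algebraMap K Ω a) (algebraMap K Ω b))
      (z : Fin m → SPt (algebraMap K Ω a) (algebraMap K Ω b)), ∀ f ∈ F,
      eval (fun e => TH954.crd (Q e.1 + s e.1 • z0 + ∑ l, M l e.1 • z l) e.2) f = 0
  · refine ⟨{(Q, Fin.cons s M)}, ?_, ?_, ?_⟩
    · rw [Finset.card_singleton]
      omega
    · intro p hp z f hf
      rw [Finset.mem_singleton] at hp
      rw [hp]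
      have h1 := hall (z 0) (fun l => z l.succ) f hf
      have h2 : ∀ i, Q i + ∑ l, (Fin.cons s M : Fin (m + 1) → Fin n → ℤ) l i • z l =
          Q i + s i • z 0 + ∑ l, M l i • z l.succ := by
        intro i
        rw [Fin.sum_univ_succ, add_assoc]
        simp only [Fin.cons_zero, Fin.cons_succ]
      simp_rw [h2]
      exact h1
    · intro z0 _
      refine ⟨_, Finset.mem_singleton_self _, fun z => ⟨Fin.cons z0 z, fun i => ?_⟩⟩
      rw [Fin.sum_univ_succ, add_assoc]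
      simp only [Fin.cons_zero, Fin.cons_succ]
  · push Not at hall
    obtain ⟨z00, z1, f1, hf1, hne⟩ := hall
    obtain ⟨d, hd, hdD⟩ := hF f1 hf1
    have hre : ∀ z0 i, Q i + s i • z0 + ∑ l, M l i • z1 l =
        (Q i + ∑ l, M l i • z1 l) + s i • z0 := by
      intro z0 i
      abel
    obtain ⟨Z, hZ1, hZ2⟩ := fin_of_card
      {z0 | ∀ z : Fin m → SPt (algebraMap K Ω a) (algebraMap K Ω b), ∀ f ∈ F,
        eval (fun e => TH954.crd (Q e.1 + s e.1 • z0 + ∑ l, M l e.1 • z l) e.2) f = 0}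
      (6 * (cc * (2 + Tc) * D) + 1) (by
        intro S hS
        by_contra hcard
        push Not at hcard
        apply hne
        have h1 := hcc Ω d f1 hd hdD (fun i => Q i + ∑ l, M l i • z1 l) s Tc hs S hcard (by
          intro z0 hz0
          have h2 := hS z0 hz0 z1 f1 hf1
          simp_rw [hre] at h2
          exact h2) z00
        simp_rw [hre]
        exact h1)
    refine ⟨Z.image (fun z0 => (fun i => Q i + s i • z0, Fin.cons 0 M)), ?_, ?_, ?_⟩
    · refine Finset.card_image_le.trans (hZ1.trans (by omega))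
    · intro p hp z f hf
      obtain ⟨z0, hz0, rfl⟩ := Finset.mem_image.mp hp
      have h1 := (hZ2 z0).mp hz0 (fun l => z l.succ) f hf
      have h2 : ∀ i, Q i + s i • z0 + ∑ l, (Fin.cons 0 M : Fin (m + 1) → Fin n → ℤ) l i • z l =
          Q i + s i • z0 + ∑ l, M l i • z l.succ := by
        intro i
        rw [Fin.sum_univ_succ]
        simp only [Fin.cons_zero, Fin.cons_succ, Pi.zero_apply, zero_smul, zero_add]
      simp_rw [h2]
      exact h1
    · intro z0 hz0
      refine ⟨_, Finset.mem_image_of_mem _ ((hZ2 z0).mpr hz0), fun z => ⟨Fin.cons 0 z,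
        fun i => ?_⟩⟩
      rw [Fin.sum_univ_succ]
      simp only [Fin.cons_zero, Fin.cons_succ, Pi.zero_apply, zero_smul, zero_add]

theorem tor_fin {K : Type} [Field K] [NumberField K] {a b : K}
    (hD : 4 * a ^ 3 + 27 * b ^ 2 ≠ 0) (M0 : ℕ) (hM0 : 1 ≤ M0) : ∃ Nt : ℕ,
      ∀ (Ω : Type) [Field Ω] [DecidableEq Ω] [Algebra K Ω] [IsAlgClosed Ω],
      ∃ T : Finset (SPt (algebraMap K Ω a) (algebraMap K Ω b)), T.card ≤ Nt ∧
        ∀ σ, M0 • σ = 0 → σ ∈ T := by
  classical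
  obtain ⟨Nt, hNt⟩ := bez hD 1 1 M0
  obtain ⟨C1, hC1, hcan⟩ := can_unif hD
  obtain ⟨c1, hc1, hinf⟩ := inf_ext hD C1 hC1
  obtain ⟨L', iF, iN, iDec, iA, iK, iT, R1, hR1⟩ := hinf K
  obtain ⟨q, h1, h2, h3, h4⟩ := hcan L'
  obtain ⟨hR, -⟩ := hR1 q ⟨h1, h2, h3, h4⟩
  refine ⟨Nt, fun Ω _ _ _ _ => ?_⟩
  have hfd : FiniteDimensional K L' := Module.Finite.of_restrictScalars_finite ℚ K L'
  let φ : L' →ₐ[K] Ω := IsAlgClosed.lift
  let iΩ : Algebra L' Ω := φ.toRingHom.toAlgebra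
  have iT' : IsScalarTower K L' Ω := IsScalarTower.of_algebraMap_eq (fun x => (φ.commutes x).symm)
  obtain ⟨ι, hι⟩ := lift_ex (F := L') (L := Ω) (algebraMap K L' a) (algebraMap K L' b)
    (algebraMap K Ω a) (algebraMap K Ω b) (IsScalarTower.algebraMap_apply K L' Ω a).symm
    (IsScalarTower.algebraMap_apply K L' Ω b).symm
  have hne : M0 • ι R1 ≠ 0 := by
    intro h0
    apply hR
    rw [isOfFinAddOrder_iff_nsmul_eq_zero]
    refine ⟨M0, by omega, lift_inj hι ?_⟩
    rw [map_nsmul, h0, map_zero]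
  obtain ⟨T, hT1, hT2⟩ := fin_of_card
    {σ : SPt (algebraMap K Ω a) (algebraMap K Ω b) | M0 • σ = 0} Nt (by
      intro S hS
      by_contra hcard
      push Not at hcard
      apply hne
      have h5 := hNt Ω (fun _ => 1) (X (0, 2)) (by
        intro m hm i
        rw [support_X, Finset.mem_singleton] at hm
        rw [hm]
        fin_cases i
        rw [Fin.sum_univ_three]
        simp) (by simp) (fun _ => 0) (fun _ => (M0 : ℤ)) (fun _ => by simp) S hcard (by
          intro z hz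
          have h6 : M0 • z = 0 := hS z hz
          rw [eval_X]
          simp only [zero_add]
          rw [natCast_zsmul, h6, crd_zero]
          simp) (ι R1)
      rw [eval_X] at h5
      simp only [zero_add] at h5
      rw [natCast_zsmul] at h5
      by_contra h7
      rw [TH954.V.crd_eq_of_ne h7] at h5
      exact one_ne_zero h5)
  exact ⟨T, hT1, fun σ hσ => (hT2 σ).mpr hσ⟩

end Pool.Agent.Y213.TB
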