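import Pool.Agent.TH954.NB

/-!
# Points near each other have a difference near the origin, with an explicit constant
-/

set_option autoImplicit false
set_option linter.unusedSectionVars false

open WeierstrassCurve Pool.Agent.TH954

namespace Pool.Agent.Y213.TB

variable {L : Type} [NormedField L] [IsUltrametricDist L] [DecidableEq L] {W : WeierstrassCurve L}

/-- Points near each other have a difference near the origin. -/
theorem near_diff (hW : SI W) (h2 : (2 : L) ≠ 0)
    (hD1 : ‖(4 * (4 * W.a₄ ^ 3 + 27 * W.a₆ ^ 2) : L)‖ = 1) {R d : ℝ} (hR : 1 < R)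
    (hd0 : 0 < d) (hdR : d ≤ 1 / R) (hdD' : d ≤ 1 / (2 * R ^ 11))
    (T1 T2 : W.toAffine.Point) (hT : ∀ j, ‖nc T1 j - nc T2 j‖ < d) :
    Big R (T1 - T2) := by
  set D : L := 4 * (4 * W.a₄ ^ 3 + 27 * W.a₆ ^ 2) with hDdef
  have hD0 : 0 < ‖D‖ := by
    rw [hD1]
    exact one_pos
  have hR11 : 0 < R ^ 11 := by positivity
  have hdD : d ≤ ‖D‖ / (2 * R ^ 11) := by
    rw [hD1]
    exact hdD'
  have hdR' : d * R ≤ 1 := by
    rw [le_div_iff₀ (by linarith)] at hdR
    exact hdR
  have hd1 : d ≤ 1 := by nlinarith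
  have hd2 : d ^ 2 * R ≤ 1 := by nlinarith
  by_cases hB : Big R T1
  · exact hW.big_sub h2 hR hB (hW.big_of_near hR hd1 hd2 hT hB)
  by_cases hB2 : Big R T2
  · refine hW.big_sub h2 hR (hW.big_of_near hR hd1 hd2 (fun j => ?_) hB2) hB2
    rw [norm_sub_rev]
    exact hT j
  match T1, T2 with
  | .zero, _ => exact absurd (big_zero R) hB
  | .some _ _ _, .zero => exact absurd (big_zero R) hB2
  | .some x1 y1 n1, .some x2 y2 n2 =>
    rw [big_some, not_le] at hB hB2
    generalize hT3 : Affine.Point.some x1 y1 n1 - Affine.Point.some x2 y2 n2 = T3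
    match T3 with
    | .zero => exact big_zero R
    | .some X Y n3 =>
      rw [big_some]
      by_contra hX
      rw [not_le] at hX
      obtain ⟨l, hl1, hl2, hl3⟩ := hW.toShort.chord h2 hT3
      have hl : ‖l‖ < R := by
        have h5 : l ^ 2 = X + (x1 + x2) := by rw [hl3]; ring
        have h6 : ‖l‖ ^ 2 < R := by
          rw [← norm_pow, h5]
          exact uadd_lt hX (uadd_lt hB hB2)
        nlinarith [norm_nonneg l]
      have hy1 : ‖y1‖ ^ 2 ≤ R ^ 3 := hW.norm_y_le n1 hR.le hB.le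
      have hy2 : ‖y2‖ ^ 2 ≤ R ^ 3 := hW.norm_y_le n2 hR.le hB2.le
      have hy12 : ‖y1‖ * ‖y2‖ ≤ R ^ 3 := by nlinarith [sq_nonneg (‖y1‖ - ‖y2‖)]
      have hy1' : ‖y1‖ ≤ R ^ 3 := by
        have h7 : 1 ≤ R ^ 3 := one_le_pow₀ hR.le
        nlinarith [norm_nonneg y1]
      have hy2' : ‖y2‖ ≤ R ^ 3 := by
        have h7 : 1 ≤ R ^ 3 := one_le_pow₀ hR.le
        nlinarith [norm_nonneg y2]
      have hR3 : 1 ≤ R ^ 3 := one_le_pow₀ hR.le
      have key : ‖x1 - x2‖ ≤ d * R ^ 3 ∧ ‖y1 - y2‖ ≤ d * R ^ 3 := by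
        have h20 := hT 0
        have h21 := hT 1
        have h22 := hT 2
        rcases le_or_gt ‖x1‖ 1 with h1 | h1
        · rcases le_or_gt ‖x2‖ 1 with h1' | h1'
          · rw [nc_int h1, nc_int h1'] at h20 h21
            have a0 : ‖x1 - x2‖ < d := h20
            have a1 : ‖y1 - y2‖ < d := h21
            have : d ≤ d * R ^ 3 := by nlinarith
            exact ⟨a0.le.trans this, a1.le.trans this⟩
          · exfalso
            rw [nc_int h1, nc_non h1'] at h22
            have a2 : ‖1 - 1 / y2‖ < d := h22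
            rw [usub_eq (by rw [norm_one]; exact hW.norm_w_lt n2 h1'), norm_one] at a2
            linarith
        · rcases le_or_gt ‖x2‖ 1 with h1' | h1'
          · exfalso
            rw [nc_non h1, nc_int h1'] at h22
            have a2 : ‖1 / y1 - 1‖ < d := h22
            rw [norm_sub_rev, usub_eq (by rw [norm_one]; exact hW.norm_w_lt n1 h1), norm_one] at a2
            linarith
          · rw [nc_non h1, nc_non h1'] at h20 h22
            have a0 : ‖x1 / y1 - x2 / y2‖ < d := h20
            have a2 : ‖1 / y1 - 1 / y2‖ < d := h22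
            have hy10 : y1 ≠ 0 := norm_pos_iff.mp (hW.norm_y_pos n1 h1)
            have hy20 : y2 ≠ 0 := norm_pos_iff.mp (hW.norm_y_pos n2 h1')
            have b1 : ‖y1 - y2‖ ≤ d * R ^ 3 := by
              have : y1 - y2 = -((1 / y1 - 1 / y2) * (y1 * y2)) := by
                field_simp
                ring
              rw [this, norm_neg, norm_mul, norm_mul]
              exact mul_le_mul a2.le hy12 (by positivity) hd0.le
            refine ⟨?_, b1⟩
            have : x1 - x2 = (x1 / y1) * (y1 - y2) + (x1 / y1 - x2 / y2) * y2 := by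
              field_simp
              ring
            rw [this]
            have hz : ‖x1 / y1‖ ≤ 1 := by
              have := hW.norm_z n1 h1
              by_contra hc
              rw [not_le] at hc
              have h8 : 1 ≤ ‖x1 / y1‖ ^ 2 := one_le_pow₀ hc.le
              nlinarith
            refine uadd (umul hz b1) ?_
            rw [norm_mul]
            exact mul_le_mul a0.le hy2' (norm_nonneg _) hd0.le
      obtain ⟨kx, ky⟩ := key
      have hdR4 : d * R ^ 3 ≤ d * R ^ 4 := by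
        have : R ^ 4 = R ^ 3 * R := by ring
        have h9 : 0 < d * R ^ 3 := by positivity
        rw [this]
        nlinarith
      have c1 : ‖2 * y1‖ ≤ d * R ^ 4 := by
        have : 2 * y1 = (y1 + y2) + (y1 - y2) := by ring
        rw [this, ← hl1]
        refine uadd ?_ (ky.trans hdR4)
        rw [norm_mul]
        calc ‖l‖ * ‖x1 - x2‖ ≤ R * (d * R ^ 3) :=
              mul_le_mul hl.le kx (norm_nonneg _) (by linarith)
          _ = d * R ^ 4 := by ring
      have c2 : ‖3 * x1 ^ 2 + W.a₄‖ ≤ d * R ^ 4 := by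
        have : 3 * x1 ^ 2 + W.a₄ = l * (y1 - y2) + (x1 - x2) * (2 * x1 + x2) := by
          rw [hl2]
          ring
        rw [this]
        refine uadd ?_ ?_
        · rw [norm_mul]
          calc ‖l‖ * ‖y1 - y2‖ ≤ R * (d * R ^ 3) :=
                mul_le_mul hl.le ky (norm_nonneg _) (by linarith)
            _ = d * R ^ 4 := by ring
        · rw [norm_mul]
          calc ‖x1 - x2‖ * ‖2 * x1 + x2‖ ≤ (d * R ^ 3) * R :=
                mul_le_mul kx (uadd (umul u2 hB.le) hB2.le) (norm_nonneg _) (by positivity)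
            _ = d * R ^ 4 := by ring
      have e1 := hW.toShort.eqn n1
      have hid : D = 4 * ((3 * x1 ^ 2 + 4 * W.a₄) * (3 * x1 ^ 2 + W.a₄) ^ 2) -
          27 * ((x1 ^ 3 + W.a₄ * x1 - W.a₆) * (2 * y1) ^ 2) := by
        rw [hDdef]
        linear_combination 108 * (x1 ^ 3 + W.a₄ * x1 - W.a₆) * e1
      have c3 : ‖3 * x1 ^ 2 + 4 * W.a₄‖ ≤ R ^ 3 := by
        refine uadd (umul u3 ?_) ((umul u4 hW.ha).trans hR3)
        rw [norm_pow]
        calc ‖x1‖ ^ 2 ≤ R ^ 2 := pow_le_pow_left₀ (norm_nonneg _) hB.le 2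
          _ ≤ R ^ 3 := pow_le_pow_right₀ hR.le (by norm_num)
      have hRR3 : R ≤ R ^ 3 := by
        calc R = R ^ 1 := (pow_one R).symm
          _ ≤ R ^ 3 := pow_le_pow_right₀ hR.le (by norm_num)
      have c4 : ‖x1 ^ 3 + W.a₄ * x1 - W.a₆‖ ≤ R ^ 3 := by
        refine usub (uadd ?_ ((umul hW.ha hB.le).trans hRR3)) (hW.hb.trans hR3)
        rw [norm_pow]
        exact pow_le_pow_left₀ (norm_nonneg _) hB.le 3
      have c5 : ∀ u t : L, ‖u‖ ≤ R ^ 3 → ‖t‖ ≤ d * R ^ 4 → ‖u * t ^ 2‖ ≤ d * R ^ 11 := by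
        intro u t hu ht
        rw [norm_mul, norm_pow]
        calc ‖u‖ * ‖t‖ ^ 2 ≤ R ^ 3 * (d * R ^ 4) ^ 2 :=
              mul_le_mul hu (pow_le_pow_left₀ (norm_nonneg _) ht 2) (by positivity) (by positivity)
          _ = d * (d * R ^ 11) := by ring
          _ ≤ 1 * (d * R ^ 11) := mul_le_mul_of_nonneg_right hd1 (by positivity)
          _ = d * R ^ 11 := one_mul _
      have c6 : ‖D‖ ≤ d * R ^ 11 := by
        rw [hid]
        exact usub (umul u4 (c5 _ _ c3 c2)) (umul u27 (c5 _ _ c4 c1))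
      rw [le_div_iff₀ (by positivity)] at hdD
      nlinarith

end Pool.Agent.Y213.TB
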