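import Pool.Agent.Y213.TB.Cnt
import Pool.Agent.Y213.TB.Asm2
import Pool.Agent.Y213.TB.Bog

/-!
# The points of rank one over the number fields with many primes of small norm
-/

set_option autoImplicit false
set_option linter.unusedSectionVars false

open MvPolynomial WeierstrassCurve NumberField Height Pool.Agent.TH942 Pool.Agent.TH954
  Pool.Agent.TH954.V Pool.Agent.Y213.TM

namespace Pool.Agent.Y213.TB

/-- generators with a lower bound for the height -/
theorem richGen {K : Type} [Field K] [NumberField K] {a b : K} (ha : IsIntegral ℤ a)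
    (hb : IsIntegral ℤ b) (hD : 4 * a ^ 3 + 27 * b ^ 2 ≠ 0) (C1 : ℝ)
    (hcan : ∀ (L : Type) [Field L] [NumberField L] [DecidableEq L] [Algebra K L],
      ∃ q : SPt (algebraMap K L a) (algebraMap K L b) → ℝ, IsCan C1 q)
    (n q0 : ℕ) (δ : ℝ) (hδ : 0 < δ) : ∃ M0 : ℕ, 1 ≤ M0 ∧
      ∀ (L : Type) [Field L] [NumberField L] [DecidableEq L] [Algebra K L],
        Rich q0 δ (algebraMap K L a) (algebraMap K L b) →
      ∀ A : Fin n → SPt (algebraMap K L a) (algebraMap K L b),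
        Module.rank ℤ (AddSubgroup.closure (Set.range A)) ≤ 1 →
        (∀ i, M0 • A i = 0) ∨
        ∃ (R : SPt (algebraMap K L a) (algebraMap K L b)) (t : Fin n → ℤ),
          ¬ IsOfFinAddOrder R ∧ (C1 + 2) * Module.finrank ℚ L ≤ logHeight (TH954.crd (M0 • R)) ∧
          ∀ i, M0 • (A i - t i • R) = 0 := by
  classical
  obtain ⟨M0, hM0, hbog⟩ := bog q0 δ (C1 + 2) hδ
  refine ⟨M0, hM0, ?_⟩
  intro L _ _ _ _ hrich A hA
  have hD' : 4 * (algebraMap K L a) ^ 3 + 27 * (algebraMap K L b) ^ 2 ≠ 0 := by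
    intro h0
    apply hD
    apply (algebraMap K L).injective
    rw [map_zero, ← h0]
    simp only [map_add, map_mul, map_pow, map_ofNat]
  have hE : ShortInt (sw (algebraMap K L a) (algebraMap K L b)) :=
    { h1 := rfl
      h2 := rfl
      h3 := rfl
      ia := ha.map (algebraMap K L).toIntAlgHom
      ib := hb.map (algebraMap K L).toIntAlgHom
      disc := hD' }
  obtain ⟨q, hq⟩ := hcan L
  have hDL : (1 : ℝ) ≤ Module.finrank ℚ L := by
    have : 1 ≤ Module.finrank ℚ L := Module.finrank_pos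
    exact_mod_cast this
  have htor : ∀ σ : SPt (algebraMap K L a) (algebraMap K L b), IsOfFinAddOrder σ →
      M0 • σ = 0 := by
    intro σ hσ
    rcases hbog L _ _ hE hrich σ with h | h
    · exact h
    · exfalso
      have h1 : q (M0 • σ) = 0 := by
        have h2 : q σ = 0 := by
          have := q_add_tors hq.par (P := 0) hσ
          rwa [zero_add, q_zero' hq.par] at this
        rw [q_nsmul hq.par, h2, mul_zero]
      have h3 := hq.ht_le (M0 • σ)
      rw [h1] at h3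
      linarith
  rcases rank_one_gen hD' _ hA with hall | ⟨R, -, hR, hgen⟩
  · left
    intro i
    exact htor _ (hall _ (AddSubgroup.subset_closure (Set.mem_range_self i)))
  · right
    choose t ht using fun i => hgen (A i) (AddSubgroup.subset_closure (Set.mem_range_self i))
    refine ⟨R, t, hR, ?_, fun i => htor _ (ht i)⟩
    rcases hbog L _ _ hE hrich R with h | h
    · exfalso
      apply hR
      rw [isOfFinAddOrder_iff_nsmul_eq_zero]
      exact ⟨M0, by omega, h⟩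
    · exact h

theorem struct {K : Type} [Field K] [NumberField K] {a b : K} (hD : 4 * a ^ 3 + 27 * b ^ 2 ≠ 0)
    (n D : ℕ) (C1 : ℝ) (hC1 : 0 ≤ C1)
    (hcan : ∀ (L : Type) [Field L] [NumberField L] [DecidableEq L] [Algebra K L],
      ∃ q : SPt (algebraMap K L a) (algebraMap K L b) → ℝ, IsCan C1 q) (M0 : ℕ) (hM0 : 1 ≤ M0) :
    ∃ (C4 : ℝ) (B2 : ℕ), 0 ≤ C4 ∧
      ∀ (L : Type) [Field L] [NumberField L] [DecidableEq L] [Algebra K L] (h : ℝ), 0 ≤ h →
      ∀ F : Set (MvPolynomial (Fin n × Fin 3) L), Deg D F →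
        (∀ f ∈ F, fht f ≤ h * Module.finrank ℚ L) →
      ∀ (P P0 : Fin n → SPt (algebraMap K L a) (algebraMap K L b)),
        (∀ i, logHeight (TH954.crd (P0 i)) ≤ h * Module.finrank ℚ L) →
        (∀ f ∈ F, eval (fun p => TH954.crd (P p.1) p.2) f = 0) →
      ∀ (R : SPt (algebraMap K L a) (algebraMap K L b)) (t : Fin n → ℤ), ¬ IsOfFinAddOrder R →
        (C1 + 2) * Module.finrank ℚ L ≤ logHeight (TH954.crd (M0 • R)) →
        (∀ i, M0 • (P i - P0 i - t i • R) = 0) →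
      ∃ (s : Fin n → ℤ) (M : Fin (n + 1) → Fin n → ℤ),
        (∀ l i, |M l i| ≤ B2) ∧ (∀ i, (s i : ℝ) ^ 2 ≤ C4 * (1 + h)) ∧
        (∃ z : Fin (n + 1) → SPt (algebraMap K L a) (algebraMap K L b), ∀ i,
          P i = s i • R + (P i - t i • R) + ∑ l, M l i • z l) ∧
        InX F (fun i => s i • R + (P i - t i • R)) M := by
  classical
  obtain ⟨C2, B2, hC2, hasm⟩ := asm2 hD n D C1 hC1 hcan
  refine ⟨(M0 : ℝ) ^ 2 * (C2 * (3 / 2 + 5 / 2 * C1)), B2, by positivity, ?_⟩
  intro L _ _ _ _ h hh F hF hpF P P0 hP0 hPX R t hR hRh ht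
  obtain ⟨q, hq⟩ := hcan L
  set DL : ℝ := (Module.finrank ℚ L : ℝ) with hDL
  have hDL1 : 1 ≤ DL := by
    have : 1 ≤ Module.finrank ℚ L := Module.finrank_pos
    rw [hDL]
    exact_mod_cast this
  have hDL0 : 0 ≤ DL := zero_le_one.trans hDL1
  have hhDL : 0 ≤ h * DL := mul_nonneg hh hDL0
  have hqP0 : ∀ i, q (P0 i) ≤ (h + C1) * DL := by
    intro i
    have h3 := hq.le_ht (P0 i)
    have h4 := hP0 i
    rw [add_mul]
    linarith
  have htor : ∀ i, logHeight (TH954.crd (P i - t i • R)) ≤ (3 / 2 * h + 5 / 2 * C1) * DL := by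
    intro i
    have e : P i - t i • R = P0 i + (P i - P0 i - t i • R) := by abel
    have hσ : IsOfFinAddOrder (P i - P0 i - t i • R) := by
      rw [isOfFinAddOrder_iff_nsmul_eq_zero]
      exact ⟨M0, by omega, ht i⟩
    have h1 := hq.ht_le (P0 i + (P i - P0 i - t i • R))
    rw [q_add_tors hq.par hσ] at h1
    rw [e]
    have h2 := hqP0 i
    nlinarith
  -- the normalised forms
  choose c hc0 hc using fun f : {f : MvPolynomial (Fin n × Fin 3) L // f ≠ 0} =>
    norm_ex f.1 f.2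
  set F' : Set (MvPolynomial (Fin n × Fin 3) L) :=
    {g | ∃ (f : MvPolynomial (Fin n × Fin 3) L) (hf : f ≠ 0), f ∈ F ∧
      g = C (c ⟨f, hf⟩) * f} with hF'
  have hF'D : Deg D F' := by
    rintro g ⟨f, hf0, hf, rfl⟩
    obtain ⟨d, hd, hdD⟩ := hF f hf
    refine ⟨d, ?_, hdD⟩
    intro m hm i
    refine hd m ?_ i
    rw [MvPolynomial.mem_support_iff, coeff_C_mul] at hm
    rw [MvPolynomial.mem_support_iff]
    exact right_ne_zero_of_mul hm
  have hF'h : ∀ g ∈ F', pht g ≤ (3 / 2 * h + 5 / 2 * C1) * DL := by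
    rintro g ⟨f, hf0, hf, rfl⟩
    refine (hc ⟨f, hf0⟩).trans ((hpF f hf).trans ?_)
    have : 0 ≤ C1 * DL := mul_nonneg hC1 hDL0
    nlinarith
  have hF'X : ∀ g ∈ F', eval (fun p => TH954.crd (P p.1) p.2) g = 0 := by
    rintro g ⟨f, hf0, hf, rfl⟩
    rw [map_mul, hPX f hf, mul_zero]
  have hback : ∀ {m : ℕ} (Q : Fin n → SPt (algebraMap K L a) (algebraMap K L b))
      (M : Fin m → Fin n → ℤ), InX F' Q M → InX F Q M := by
    intro m Q M hX L' _ _ _ _ _ ι hι z f hf
    by_cases hf0 : f = 0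
    · rw [hf0, map_zero, map_zero]
    · have h1 := hX L' ι hι z _ ⟨f, hf0, hf, rfl⟩
      rw [map_mul (MvPolynomial.map (algebraMap L L')), map_C, map_mul, eval_C, mul_eq_zero] at h1
      rcases h1 with h1 | h1
      · exact absurd ((map_eq_zero (algebraMap L L')).mp h1) (hc0 _)
      · exact h1
  set h' : ℝ := 3 / 2 * h + 5 / 2 * C1 with hh'
  have hh'0 : 0 ≤ h' := by positivity
  have hPi : ∀ i, t i • R + (P i - t i • R) = P i := by
    intro i
    abel
  have htT : t ∈ TT F' R (fun i => P i - t i • R) := by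
    intro g hg
    simp_rw [hPi]
    exact hF'X g hg
  obtain ⟨s, M, hM, hs, ⟨z, hz⟩, hX⟩ := hasm L q hq h' hh'0 F' hF'D hF'h R
    (fun i => P i - t i • R) hR htor t htT
  refine ⟨s, M, hM, ?_, ⟨z, fun i => ?_⟩, hback _ M hX⟩
  · intro i
    have h1 := hq.ht_le (M0 • R)
    rw [q_nsmul hq.par] at h1
    have h2 : DL ≤ (M0 : ℝ) ^ 2 * q R := by linarith
    have h3 := hs i
    have h4 : (s i : ℝ) ^ 2 * DL ≤ (M0 : ℝ) ^ 2 * (C2 * ((1 + h') * DL)) := by
      calc (s i : ℝ) ^ 2 * DL ≤ (s i : ℝ) ^ 2 * ((M0 : ℝ) ^ 2 * q R) :=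
            mul_le_mul_of_nonneg_left h2 (sq_nonneg _)
        _ = (M0 : ℝ) ^ 2 * ((s i : ℝ) ^ 2 * q R) := by ring
        _ ≤ _ := mul_le_mul_of_nonneg_left h3 (by positivity)
    have h5 : (s i : ℝ) ^ 2 ≤ (M0 : ℝ) ^ 2 * (C2 * (1 + h')) := by
      have h6 : (s i : ℝ) ^ 2 * DL ≤ ((M0 : ℝ) ^ 2 * (C2 * (1 + h'))) * DL := by
        rw [mul_assoc, mul_assoc]
        exact h4
      exact le_of_mul_le_mul_right h6 (by linarith)
    refine h5.trans ?_
    have h7 : 1 + h' ≤ (3 / 2 + 5 / 2 * C1) * (1 + h) := by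
      rw [hh']
      nlinarith [mul_nonneg hC1 hh]
    have h8 : C2 * (1 + h') ≤ C2 * ((3 / 2 + 5 / 2 * C1) * (1 + h)) :=
      mul_le_mul_of_nonneg_left h7 hC2
    calc (M0 : ℝ) ^ 2 * (C2 * (1 + h')) ≤ (M0 : ℝ) ^ 2 * (C2 * ((3 / 2 + 5 / 2 * C1) * (1 + h))) :=
          mul_le_mul_of_nonneg_left h8 (by positivity)
      _ = _ := by ring
  · rw [← hz i, hPi]

end Pool.Agent.Y213.TB
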